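import Pool.Agent.J4H12.MX.Stm

set_option autoImplicit false

universe u

namespace Pool.Agent.J4H96.MX

open Pool.Agent.J4H12.MX

theorem t_BQ : S_BQ.{u} := by
  classical
  intro G _ _ _ _ _ p N K hp hN hK hKn hKN h
  haveI : Fact p.Prime := ⟨hp⟩
  have hfin : ∀ H : Subgroup G, IsOpen (H : Set G) → H.index ≠ 0 := by
    intro H hH
    haveI : Finite (G ⧸ H) := Subgroup.quotient_finite_of_isOpen H hH
    exact Nat.card_pos.ne'
  refine (Set.Finite.subset ((N.index.primeFactors ∪ {p} : Finset ℕ).finite_toSet) ?_)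
  rintro r ⟨hr, U, hU, hd⟩
  have hNn : N.Normal := hN.1
  have hUn : U.Normal := hU.1
  obtain ⟨V, hV⟩ : ∃ V : Subgroup G, V = U ⊓ N := ⟨_, rfl⟩
  have hVn : V.Normal := by rw [hV]; exact Subgroup.normal_inf_normal U N
  have hVo : IsOpen (V : Set G) := by
    rw [hV]
    exact hU.2.inter hN.2
  obtain ⟨H, hH⟩ : ∃ H : Subgroup G, H = K ⊔ V := ⟨_, rfl⟩
  have hHn : H.Normal := by rw [hH]; exact Subgroup.sup_normal K V
  have hHo : IsOpen (H : Set G) := by
    rw [hH]
    exact Subgroup.isOpen_mono le_sup_right hVo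
  have hHN : H ≤ N := by
    rw [hH, hV]
    exact sup_le hKN inf_le_right
  have hHU : H ≤ K ⊔ U := by
    rw [hH, hV]
    exact sup_le_sup_left inf_le_left K
  have hd2 : r ∣ H.index := hd.trans (Subgroup.index_dvd_of_le hHU)
  rw [← Subgroup.relIndex_mul_index hHN] at hd2
  have hN0 := hfin N hN.2
  have hH0 := hfin H hHo
  rcases (Nat.Prime.dvd_mul hr).1 hd2 with h1 | h1
  · have hpg : IsPGroup p (N ⧸ H.subgroupOf N) := by
      intro g
      induction g using QuotientGroup.induction_on with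
      | H x =>
        obtain ⟨k, hk⟩ := h x x.2 V ⟨hVn, hVo⟩
        refine ⟨k, ?_⟩
        rw [← QuotientGroup.mk_pow, QuotientGroup.eq_one_iff, Subgroup.mem_subgroupOf, hH]
        exact hk
    have hrel : H.relIndex N ≠ 0 := by
      intro h0
      rw [← Subgroup.relIndex_mul_index hHN, h0, zero_mul] at hH0
      exact hH0 rfl
    haveI : Finite (N ⧸ H.subgroupOf N) := (Nat.finite_of_card_ne_zero hrel)
    obtain ⟨n, hn⟩ := IsPGroup.iff_card.1 hpg
    have h2 : H.relIndex N = p ^ n := hn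
    rw [h2] at h1
    have h3 : r = p := (Nat.prime_dvd_prime_iff_eq hr hp).1 (hr.dvd_of_dvd_pow h1)
    rw [h3]
    simp
  · have : r ∈ N.index.primeFactors := Nat.mem_primeFactors.2 ⟨hr, h1, hN0⟩
    simp only [Finset.coe_union, Set.mem_union, Finset.mem_coe]
    left
    exact this

end Pool.Agent.J4H96.MX
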