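import Pool.Agent.J4H12.MX.Stm

set_option autoImplicit false

universe u

namespace Pool.Agent.J4H96.MX

open Pool.Agent.J4H12.MX
open scoped Pointwise

section

variable {G : Type u} [Group G] [TopologicalSpace G] [IsTopologicalGroup G] [CompactSpace G]
  [TotallyDisconnectedSpace G]

theorem sup_closed {A B : Subgroup G} (hA : IsClosed (A : Set G)) (hB : IsClosed (B : Set G))
    (hBn : B.Normal) : IsClosed ((A ⊔ B : Subgroup G) : Set G) := by
  rw [Subgroup.mul_normal]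
  exact (hA.isCompact.mul hB.isCompact).isClosed

theorem mem_sup_normal {A B : Subgroup G} (hBn : B.Normal) {x : G} (hx : x ∈ A ⊔ B) :
    ∃ a ∈ A, ∃ b ∈ B, a * b = x := by
  have h : x ∈ ((A ⊔ B : Subgroup G) : Set G) := hx
  rw [Subgroup.mul_normal] at h
  obtain ⟨a, ha, b, hb, hab⟩ := Set.mem_mul.1 h
  exact ⟨a, ha, b, hb, hab⟩

theorem stab {A : Subgroup G} (hA : IsClosed (A : Set G)) (hAn : A.Normal) (hM : MaxC A)
    (f : ℕ → Subgroup G) (hf : Monotone f) (hfc : ∀ n, IsClosed (f n : Set G))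
    (h : ∃ n, ∀ m, n ≤ m → f m ⊔ A = f n ⊔ A) : ∃ n, ∀ m, n ≤ m → f m = f n := by
  obtain ⟨n1, h1⟩ := hM (fun n => f n ⊓ A) (fun a b hab => inf_le_inf_right A (hf hab))
    (fun n => by
      change IsClosed ((f n : Set G) ∩ (A : Set G))
      exact (hfc n).inter hA) (fun n => inf_le_right)
  obtain ⟨n2, h2⟩ := h
  refine ⟨max n1 n2, fun m hm => le_antisymm ?_ (hf hm)⟩
  intro x hx
  have hi : f m ⊓ A = f (max n1 n2) ⊓ A :=
    (h1 m ((le_max_left _ _).trans hm)).trans (h1 _ (le_max_left _ _)).symm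
  have hs : f m ⊔ A = f (max n1 n2) ⊔ A :=
    (h2 m ((le_max_right _ _).trans hm)).trans (h2 _ (le_max_right _ _)).symm
  have hx2 : x ∈ f (max n1 n2) ⊔ A := by
    rw [← hs]
    exact Subgroup.mem_sup_left hx
  obtain ⟨y, hy, a, ha, rfl⟩ := mem_sup_normal hAn hx2
  have hy' : y ∈ f m := hf hm hy
  have ha' : a ∈ f m := by
    have := mul_mem (inv_mem hy') hx
    rwa [inv_mul_cancel_left] at this
  have ha2 : a ∈ f (max n1 n2) ⊓ A := by
    rw [← hi]
    exact ⟨ha', ha⟩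
  exact mul_mem hy ha2.1

theorem max_sup {A R : Subgroup G} (hA : IsClosed (A : Set G)) (hAn : A.Normal) (hMA : MaxC A)
    (hR : IsClosed (R : Set G)) (hRn : R.Normal) (hMR : MaxC R) : MaxC (A ⊔ R) := by
  intro f hf hfc hfle
  refine stab hA hAn hMA f hf hfc ?_
  obtain ⟨n, hn⟩ := hMR (fun n => (f n ⊔ A) ⊓ R)
    (fun a b hab => inf_le_inf_right R (sup_le_sup_right (hf hab) A))
    (fun n => by
      change IsClosed (((f n ⊔ A : Subgroup G) : Set G) ∩ (R : Set G))
      exact (sup_closed (hfc n) hA hAn).inter hR) (fun n => inf_le_right)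
  refine ⟨n, fun m hm => le_antisymm ?_ (sup_le_sup_right (hf hm) A)⟩
  intro x hx
  have hxAR : x ∈ A ⊔ R := (sup_le (hfle m) le_sup_left) hx
  obtain ⟨a, ha, r, hr, rfl⟩ := mem_sup_normal hRn hxAR
  have hr1 : r ∈ f m ⊔ A := by
    have h1 := mul_mem (inv_mem (Subgroup.mem_sup_right ha : a ∈ f m ⊔ A)) hx
    rwa [inv_mul_cancel_left] at h1
  have hr2 : r ∈ (f n ⊔ A) ⊓ R := by
    rw [← hn m hm]
    exact ⟨hr1, hr⟩
  exact mul_mem (Subgroup.mem_sup_right ha) hr2.1

theorem open_stab {M : Subgroup G} (hM : IsOpen (M : Set G)) (f : ℕ → Subgroup G)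
    (hf : Monotone f) : ∃ n, ∀ m, n ≤ m → f m ⊔ M = f n ⊔ M := by
  let g : ℕ → Subgroup G := fun n => f n ⊔ M
  have hg : Monotone g := fun a b hab => sup_le_sup_right (hf hab) M
  have hgo : ∀ n, IsOpen (g n : Set G) := fun n => Subgroup.isOpen_mono (le_sup_right) hM
  have hH : IsOpen ((⨆ n, g n : Subgroup G) : Set G) :=
    Subgroup.isOpen_mono ((le_sup_right : M ≤ g 0).trans (le_iSup g 0)) hM
  have hHc : IsCompact ((⨆ n, g n : Subgroup G) : Set G) :=
    (Subgroup.isClosed_of_isOpen _ hH).isCompact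
  have hcov : ((⨆ n, g n : Subgroup G) : Set G) ⊆ ⋃ n, (g n : Set G) := by
    rw [Subgroup.coe_iSup_of_directed hg.directed_le]
  obtain ⟨n, hn⟩ := hHc.elim_directed_cover (fun n => (g n : Set G)) hgo hcov
    (fun a b => ⟨max a b, hg (le_max_left _ _), hg (le_max_right _ _)⟩)
  refine ⟨n, fun m hm => le_antisymm ?_ (hg hm)⟩
  intro x hx
  have h1 : x ∈ (⨆ n, g n : Subgroup G) := (le_iSup g m) hx
  exact hn h1

end

theorem t_CNV : S_CNV.{u} := by
  classical
  intro G _ _ _ _ _ s M R hM hR hMs f hf hfc _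
  have key : ∀ t : Finset ℕ, t ⊆ s → IsClosed ((⨆ p ∈ t, R p : Subgroup G) : Set G) ∧
      (⨆ p ∈ t, R p : Subgroup G).Normal ∧ MaxC (⨆ p ∈ t, R p : Subgroup G) := by
    intro t
    induction t using Finset.induction_on with
    | empty =>
      intro _
      have h0 : (⨆ p ∈ (∅ : Finset ℕ), R p : Subgroup G) = ⊥ := by simp
      rw [h0]
      refine ⟨?_, inferInstance, ?_⟩
      · rw [Subgroup.coe_bot]
        exact isClosed_singleton
      · intro f _ _ hle
        exact ⟨0, fun m _ => (le_bot_iff.1 (hle m)).trans (le_bot_iff.1 (hle 0)).symm⟩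
    | insert p t hp ih =>
      intro hsub
      obtain ⟨h1, h2, h3⟩ := ih (fun x hx => hsub (Finset.mem_insert_of_mem hx))
      obtain ⟨r1, r2, r3⟩ := hR p (hsub (Finset.mem_insert_self _ _))
      rw [Finset.iSup_insert]
      refine ⟨sup_closed r1 h1 h2, ?_, max_sup r1 r2 r3 h1 h2 h3⟩
      haveI := r2
      haveI := h2
      exact Subgroup.sup_normal _ _
  obtain ⟨h1, h2, h3⟩ := key s (Finset.Subset.refl s)
  rw [← hMs] at h1 h2 h3
  exact stab h1 h2 h3 f hf hfc (open_stab hM.2 f hf)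

end Pool.Agent.J4H96.MX
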