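import Pool.Agent.J4H12.MX.Stm

set_option autoImplicit false

universe u

namespace Pool.Agent.J4H96.MX

open Pool.Agent.J4H12.MX

theorem t_TOWI : S_TOWI.{u} := by
  intro G _ _ _ _ _ P hP h
  let F : ℕ → Set (ℕ → G) := fun m => {g | ∀ j k, j < k → k < m → ∀ x ∈ P j, ∀ y ∈ P k,
      (g k)⁻¹ * ((g j * x * (g j)⁻¹) * (g k * y * (g k)⁻¹) * (g j * x * (g j)⁻¹)⁻¹) * g k ∈ P k}
  have hclosed : ∀ m, IsClosed (F m) := by
    intro m
    have : F m = ⋂ (j : ℕ), ⋂ (k : ℕ), ⋂ (_ : j < k), ⋂ (_ : k < m), ⋂ (x : P j), ⋂ (y : P k),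
        {g : ℕ → G | (g k)⁻¹ * ((g j * (x : G) * (g j)⁻¹) * (g k * (y : G) * (g k)⁻¹) *
          (g j * (x : G) * (g j)⁻¹)⁻¹) * g k ∈ (P k : Set G)} := by
      ext g
      simp only [F, Set.mem_ofPred_eq, Set.mem_iInter, SetLike.mem_coe]
      constructor
      · intro h j k hjk hkm x y
        exact h j k hjk hkm x x.2 y y.2
      · intro h j k hjk hkm x hx y hy
        exact h j k hjk hkm ⟨x, hx⟩ ⟨y, hy⟩
    rw [this]
    refine isClosed_iInter fun j => isClosed_iInter fun k => isClosed_iInter fun _ =>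
      isClosed_iInter fun _ => isClosed_iInter fun x => isClosed_iInter fun y => ?_
    refine (hP k).preimage ?_
    have hk : Continuous fun g : ℕ → G => g k := continuous_apply k
    have hj : Continuous fun g : ℕ → G => g j := continuous_apply j
    fun_prop
  have hne : (⋂ m, F m).Nonempty := by
    apply IsCompact.nonempty_iInter_of_sequence_nonempty_isCompact_isClosed F
    · intro m g hg j k hjk hkm
      exact hg j k hjk (by omega)
    · intro m
      obtain ⟨g, hg⟩ := h m
      exact ⟨g, hg⟩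
    · exact (hclosed 0).isCompact
    · exact hclosed
  obtain ⟨g, hg⟩ := hne
  refine ⟨g, fun j k hjk => ?_⟩
  exact (Set.mem_iInter.1 hg (k + 1)) j k hjk (by omega)

end Pool.Agent.J4H96.MX
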